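import Pool.Agent.helper57.DH.SpecL

set_option autoImplicit false

open Filter Topology MeasureTheory
open scoped commutatorElement

namespace Pool.Agent.helper90.DH

open Pool.Agent.helper64.D2

theorem LDM_mem (s : ℕ) (k : ℤ) (x : ℝ) : x ∈ cell s k ↔ ci s x = k := by
  have hp : (0 : ℝ) < 2 ^ s := by positivity
  unfold cell ci
  rw [Int.floor_eq_iff, Set.mem_Ico, div_le_iff₀ hp, lt_div_iff₀ hp, mul_comm x]

theorem LDM_ci (u s : ℕ) (h : u ≤ s) (x : ℝ) : ci u x = ci s x / (2 ^ (s - u) : ℤ) := by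
  unfold ci
  have hp : (0 : ℤ) < 2 ^ (s - u) := by positivity
  have hpr : (0 : ℝ) < 2 ^ (s - u) := by positivity
  have h1 : (2 : ℝ) ^ s * x = 2 ^ (s - u) * (2 ^ u * x) := by
    rw [← mul_assoc, ← pow_add, Nat.sub_add_cancel h]
  symm
  rw [Int.ediv_eq_iff_of_pos hp]
  have h2 := Int.floor_le ((2 : ℝ) ^ u * x)
  have h3 := Int.lt_floor_add_one ((2 : ℝ) ^ u * x)
  rw [h1]
  constructor
  · rw [Int.le_floor]
    push_cast
    nlinarith
  · rw [Int.floor_lt]
    push_cast
    nlinarith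

theorem LDM_meas (s : ℕ) (k : ℤ) : MeasurableSet (cell s k) := measurableSet_Ico

theorem LDM_vol (s : ℕ) (k : ℤ) : volume.real (cell s k) = (2 ^ s)⁻¹ := by
  have hp : (0 : ℝ) < 2 ^ s := by positivity
  unfold cell
  rw [Real.volume_real_Ico_of_le (by rw [div_le_div_iff_of_pos_right hp]; linarith)]
  field_simp
  ring

open Classical in
theorem LDM (hLBM : LBM_stmt) : LDM_stmt := by
  intro h μ s0 N hh h0 hμ
  have hint : Integrable h := (hLBM.2.1 0 h hh).2.2
  let Q : ℕ → ℤ → Prop := fun s k => μ < 2 ^ s * ∫ t in cell s k, h t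
  let I : Finset (ℕ × ℤ) := ((Finset.Icc s0 N) ×ˢ (Finset.Icc (0 : ℤ) (2 ^ N))).filter
    (fun i => Q i.1 i.2 ∧ ∀ r, s0 ≤ r → r < i.1 → ¬ Q r (i.2 / 2 ^ (i.1 - r)))
  have hsub : {x | ∃ s : ℕ, s0 ≤ s ∧ s ≤ N ∧ μ < 2 ^ s * ∫ t in cell s (ci s x), h t} ⊆ ⋃ i ∈ I, cell i.1 i.2 := by
    intro x hx
    have hex : ∃ s : ℕ, s0 ≤ s ∧ s ≤ N ∧ Q s (ci s x) := hx
    obtain ⟨h1, h2, h3⟩ := Nat.find_spec hex
    have hmin : ∀ r, s0 ≤ r → r < Nat.find hex → ¬ Q r (ci r x) := by
      intro r hr1 hr2 hQ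
      exact Nat.find_min hex hr2 ⟨hr1, by omega, hQ⟩
    rw [Set.mem_iUnion₂]
    refine ⟨(Nat.find hex, ci (Nat.find hex) x), ?_, ?_⟩
    · rw [Finset.mem_filter, Finset.mem_product, Finset.mem_Icc, Finset.mem_Icc]
      have hk : 0 ≤ ci (Nat.find hex) x ∧ ci (Nat.find hex) x ≤ 2 ^ N := by
        -- the integral is positive, so the cell meets `[0,1]`
        have h4 : ∃ t ∈ cell (Nat.find hex) (ci (Nat.find hex) x), h t ≠ 0 := by
          by_contra hc
          push Not at hc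
          have h5 : ∫ t in cell (Nat.find hex) (ci (Nat.find hex) x), h t = 0 := by
            rw [setIntegral_congr_fun (LDM_meas _ _) (g := fun _ => (0 : ℝ)) hc]
            simp
          have h6 : μ < 2 ^ (Nat.find hex) * ∫ t in cell (Nat.find hex) (ci (Nat.find hex) x), h t := h3
          rw [h5, mul_zero] at h6
          linarith
        obtain ⟨t, ht1, ht2⟩ := h4
        have ht3 : t ∈ Set.Icc (0 : ℝ) 1 := by
          by_contra hc
          exact ht2 (hh.2.2 t hc)
        rw [LDM_mem] at ht1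
        rw [← ht1]
        unfold ci
        constructor
        · rw [Int.floor_nonneg]
          have := ht3.1
          positivity
        · have h7 : ((⌊(2 : ℝ) ^ (Nat.find hex) * t⌋ : ℤ) : ℝ) ≤ ((2 ^ N : ℤ) : ℝ) := by
            refine (Int.floor_le _).trans ?_
            push_cast
            calc (2 : ℝ) ^ (Nat.find hex) * t ≤ 2 ^ (Nat.find hex) * 1 := by
                  apply mul_le_mul_of_nonneg_left ht3.2 (by positivity)
              _ = 2 ^ (Nat.find hex) := mul_one _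
              _ ≤ 2 ^ N := pow_le_pow_right₀ (by norm_num) h2
          exact Int.cast_le.mp h7
      refine ⟨⟨⟨h1, h2⟩, hk⟩, h3, ?_⟩
      intro r hr1 hr2
      rw [← LDM_ci r (Nat.find hex) hr2.le x]
      exact hmin r hr1 hr2
    · show x ∈ cell (Nat.find hex) (ci (Nat.find hex) x)
      rw [LDM_mem]
  have hdisj : Set.PairwiseDisjoint (↑I : Set (ℕ × ℤ)) (fun i => cell i.1 i.2) := by
    -- if `i, j` have a common point then they are equal
    have key : ∀ i ∈ I, ∀ j ∈ I, ∀ x, x ∈ cell i.1 i.2 → x ∈ cell j.1 j.2 → ¬ i.1 < j.1 := by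
      intro i hi j hj x hxi hxj hlt
      rw [Finset.mem_filter, Finset.mem_product, Finset.mem_Icc] at hi hj
      have h1 := hj.2.2 i.1 hi.1.1.1 hlt
      rw [LDM_mem] at hxi hxj
      rw [← hxj, ← LDM_ci i.1 j.1 hlt.le x, hxi] at h1
      exact h1 hi.2.1
    intro i hi j hj hne
    rw [Function.onFun, Set.disjoint_left]
    intro x hxi hxj
    apply hne
    have h1 := key i hi j hj x hxi hxj
    have h2 := key j hj i hi x hxj hxi
    have h3 : i.1 = j.1 := by omega
    apply Prod.ext h3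
    rw [LDM_mem] at hxi hxj
    rw [← hxi, ← hxj, h3]
  have hfin : volume (⋃ i ∈ I, cell i.1 i.2) ≠ ⊤ := by
    refine (measure_biUnion_lt_top I.finite_toSet (fun i _ => ?_)).ne
    show volume (Set.Ico _ _) < ⊤
    rw [Real.volume_Ico]
    exact ENNReal.ofReal_lt_top
  calc volume.real {x | ∃ s : ℕ, s0 ≤ s ∧ s ≤ N ∧ μ < 2 ^ s * ∫ t in cell s (ci s x), h t}
      ≤ volume.real (⋃ i ∈ I, cell i.1 i.2) := measureReal_mono hsub hfin
    _ ≤ ∑ i ∈ I, volume.real (cell i.1 i.2) := measureReal_biUnion_finset_le _ _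
    _ ≤ ∑ i ∈ I, 1 / μ * ∫ t in cell i.1 i.2, h t := by
        apply Finset.sum_le_sum
        intro i hi
        rw [Finset.mem_filter] at hi
        have h1 : μ < 2 ^ i.1 * ∫ t in cell i.1 i.2, h t := hi.2.1
        have hp : (0 : ℝ) < 2 ^ i.1 := by positivity
        rw [LDM_vol, one_div, inv_mul_eq_div, le_div_iff₀ hμ, inv_mul_le_iff₀ hp]
        exact h1.le
    _ = 1 / μ * ∫ t in ⋃ i ∈ I, cell i.1 i.2, h t := by
        rw [← Finset.mul_sum, integral_biUnion_finset I (fun i _ => LDM_meas _ _) hdisj (fun i _ => hint.integrableOn)]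
    _ ≤ 1 / μ * ∫ x, h x := by
        apply mul_le_mul_of_nonneg_left _ (by positivity)
        exact setIntegral_le_integral hint (Filter.Eventually.of_forall h0)

end Pool.Agent.helper90.DH
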