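import Pool.Agent.helper81.DH.SpecF

set_option autoImplicit false

open Filter Topology MeasureTheory
open scoped commutatorElement

namespace Pool.Agent.helper90.DH

open Pool.Agent.helper64.D2

theorem FLD (hFML : FML_stmt) : FLD_stmt := by
  intro κ hκ I v hv h hh
  obtain ⟨hcd, hpos, heven, hout, hone⟩ := id hκ
  have hint : ∀ i ∈ I, ∀ x, Integrable (fun t => κ t * v i (x - h * t)) := fun i hi => (hFML κ hκ (v i) (hv i hi) h hh).1
  have hκi : Integrable κ := by
    by_contra hc
    rw [integral_undef hc] at hone
    norm_num at hone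
  constructor
  · intro x
    unfold mol
    rw [← integral_finsetSum I (fun i hi => hint i hi x)]
    congr 1
    funext t
    rw [Finset.mul_sum]
  · intro z b hb
    have h1 : ∑ i ∈ I, mol κ h (v i) (z i) = ∫ t, κ t * ∑ i ∈ I, v i (z i - h * t) := by
      unfold mol
      rw [← integral_finsetSum I (fun i hi => hint i hi (z i))]
      congr 1
      funext t
      rw [Finset.mul_sum]
    rw [h1]
    have h2 : ∀ t, ‖κ t * ∑ i ∈ I, v i (z i - h * t)‖ ≤ κ t * b := by
      intro t
      rw [Real.norm_eq_abs, abs_mul, abs_of_nonneg (hpos t)]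
      by_cases ht : |t| ≤ 1
      · exact mul_le_mul_of_nonneg_left (hb t ht) (hpos t)
      · have h3 : κ t = 0 := by
          apply hout
          intro h4
          exact ht (abs_le.mpr h4)
        rw [h3, zero_mul, zero_mul]
    have h3 := norm_integral_le_of_norm_le (hκi.mul_const b) (Filter.Eventually.of_forall h2)
    rw [Real.norm_eq_abs, integral_mul_const, hone, one_mul] at h3
    exact h3

end Pool.Agent.helper90.DH
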