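import Pool.Agent.helper48.DH.SpecY

set_option autoImplicit false

open Filter Topology MeasureTheory
open scoped commutatorElement

namespace Pool.Agent.helper90.DH

open Pool.Agent.helper64.D2

theorem yZF : yZF_stmt := by
  intro Z p p' A D0 D1 hZ hout hp hp' hA hb
  have hd1 : Differentiable ℝ Z := hZ.differentiable (by norm_num)
  have hd2 : Differentiable ℝ (deriv Z) := hZ.differentiable_deriv_two
  have hZ2 : ContDiff ℝ (1 + 1) Z := by
    rw [one_add_one_eq_two]
    exact hZ
  have hZ1 : ContDiff ℝ 1 (deriv Z) := hZ2.deriv'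
  have hc2 : Continuous (d2 Z) := hZ1.continuous_deriv_one
  have hcZ : Continuous Z := hd1.continuous
  have hc1 : Continuous (deriv Z) := hd2.continuous
  have h1 : ∀ t, HasDerivAt Z (deriv Z t) t := fun t => (hd1 t).hasDerivAt
  have h2 : ∀ t, HasDerivAt (deriv Z) (d2 Z t) t := fun t => (hd2 t).hasDerivAt
  -- vanishing outside
  have hloc : ∀ x, x ∉ Set.Icc p p' → ∀ᶠ t in 𝓝 x, Z t = 0 := by
    intro x hx
    have : (Set.Icc p p')ᶜ ∈ 𝓝 x := isClosed_Icc.isOpen_compl.mem_nhds hx
    filter_upwards [this] with t ht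
    exact hout t ht
  have hloc1 : ∀ x, x ∉ Set.Icc p p' → deriv Z x = 0 := by
    intro x hx
    have h3 : Z =ᶠ[𝓝 x] fun _ => (0 : ℝ) := hloc x hx
    rw [h3.deriv_eq, deriv_const]
  have hloc2 : ∀ x, x ∉ Set.Icc p p' → d2 Z x = 0 := by
    intro x hx
    have h3 : deriv Z =ᶠ[𝓝 x] fun _ => (0 : ℝ) := by
      have : (Set.Icc p p')ᶜ ∈ 𝓝 x := isClosed_Icc.isOpen_compl.mem_nhds hx
      filter_upwards [this] with t ht
      exact hloc1 t ht
    unfold d2
    rw [h3.deriv_eq, deriv_const]
  have h0 : (0 : ℝ) ∉ Set.Icc p p' := fun h => by linarith [h.1]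
  have h1' : (1 : ℝ) ∉ Set.Icc p p' := fun h => by linarith [h.2]
  have hcf : Continuous (fun x => d2 Z x / A) := hc2.div_const A
  have hA0 : A ≠ 0 := hA.ne'
  -- integrals
  have I0 : ∀ a b : ℝ, ∫ t in a..b, d2 Z t / A = (deriv Z b - deriv Z a) / A := by
    intro a b
    have h3 : ∀ t ∈ Set.uIcc a b, HasDerivAt (fun t => deriv Z t / A) (d2 Z t / A) t := fun t _ => (h2 t).div_const A
    rw [intervalIntegral.integral_eq_sub_of_hasDerivAt h3 (hcf.intervalIntegrable _ _)]
    ring
  have I1 : ∀ c a b : ℝ, ∫ t in a..b, (t - c) * (d2 Z t / A) = (((b - c) * deriv Z b - Z b) - ((a - c) * deriv Z a - Z a)) / A := by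
    intro c a b
    have h3 : ∀ t ∈ Set.uIcc a b, HasDerivAt (fun t => ((t - c) * deriv Z t - Z t) / A) ((t - c) * (d2 Z t / A)) t := by
      intro t _
      have h4 : HasDerivAt (fun t : ℝ => t - c) 1 t := (hasDerivAt_id t).sub_const c
      refine (((h4.mul (h2 t)).sub (h1 t)).div_const A).congr_deriv ?_
      ring
    rw [intervalIntegral.integral_eq_sub_of_hasDerivAt h3 (by
      apply Continuous.intervalIntegrable
      exact (continuous_id.sub continuous_const).mul hcf)]
    ring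
  have hzero : ∀ x, x ∉ Set.Icc p p' → d2 Z x / A = 0 := fun x hx => by rw [hloc2 x hx, zero_div]
  have hsupp : Function.support (fun t => d2 Z t / A) ⊆ Set.Ioc (0 : ℝ) 1 := by
    intro t ht
    by_contra hc
    apply ht
    apply hzero
    intro h
    apply hc
    exact ⟨by linarith [h.1], by linarith [h.2]⟩
  have hsupp1 : Function.support (fun t => t * (d2 Z t / A)) ⊆ Set.Ioc (0 : ℝ) 1 := by
    intro t ht
    apply hsupp
    intro h
    apply ht
    show t * (d2 Z t / A) = 0
    have h' : d2 Z t / A = 0 := h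
    rw [h', mul_zero]
  refine ⟨hcf, ⟨hcf.measurable, ?_, ?_⟩, hzero, ?_, ?_, ?_, ?_⟩
  · -- bounded
    have hcs : HasCompactSupport (fun x => d2 Z x / A) := by
      apply HasCompactSupport.intro (isCompact_Icc (a := p) (b := p'))
      intro x hx
      exact hzero x hx
    obtain ⟨C, hC⟩ := hcs.exists_bound_of_continuous hcf
    exact ⟨C, fun x => by
      have := hC x
      rwa [Real.norm_eq_abs] at this⟩
  · intro x hx
    apply hzero
    intro h
    exact hx ⟨by linarith [h.1], by linarith [h.2]⟩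
  · intro x
    constructor
    · rw [I0, hloc1 0 h0, sub_zero]
    · unfold A2
      have h3 : ∫ t in (0 : ℝ)..x, (x - t) * (d2 Z t / A) = -∫ t in (0 : ℝ)..x, (t - x) * (d2 Z t / A) := by
        rw [← intervalIntegral.integral_neg]
        congr 1
        funext t
        ring
      rw [h3, I1, hloc1 0 h0, hout 0 h0]
      ring
  · rw [← intervalIntegral.integral_eq_integral_of_support_subset hsupp, I0, hloc1 0 h0, hloc1 1 h1']
    ring
  · rw [← intervalIntegral.integral_eq_integral_of_support_subset hsupp1]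
    have h3 := I1 0 0 1
    simp only [sub_zero] at h3
    rw [h3, hloc1 0 h0, hloc1 1 h1', hout 0 h0, hout 1 h1']
    ring
  · intro s x
    have hp2 : (0 : ℝ) < 2 ^ s := by positivity
    set k : ℤ := ci s x with hk
    set a : ℝ := (k : ℝ) / 2 ^ s with ha
    set b : ℝ := ((k : ℝ) + 1) / 2 ^ s with hb'
    set m : ℝ := mid s x with hm
    have hmk : m = ((k : ℝ) + 1 / 2) / 2 ^ s := rfl
    have hab : a ≤ b := by
      rw [ha, hb', div_le_div_iff_of_pos_right hp2]
      linarith
    have hbm : b - m = 1 / 2 / 2 ^ s := by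
      rw [hb', hmk, ← sub_div]
      ring
    have ham : a - m = -(1 / 2 / 2 ^ s) := by
      rw [ha, hmk, ← sub_div]
      ring
    have hcell : ∀ g : ℝ → ℝ, ∫ t in cell s k, g t = ∫ t in a..b, g t := by
      intro g
      unfold cell
      rw [integral_Ico_eq_integral_Ioc, ← intervalIntegral.integral_of_le hab]
    have hxm : |x - m| ≤ 1 / 2 / 2 ^ s := by
      have h3 := Int.floor_le ((2 : ℝ) ^ s * x)
      have h4 := Int.lt_floor_add_one ((2 : ℝ) ^ s * x)
      have h5 : x - m = (2 ^ s * x - (k : ℝ) - 1 / 2) / 2 ^ s := by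
        rw [hmk]
        field_simp
        ring
      rw [h5, abs_div, abs_of_pos hp2, div_le_div_iff_of_pos_right hp2, abs_le]
      have h6 : (k : ℝ) = ((⌊(2 : ℝ) ^ s * x⌋ : ℤ) : ℝ) := rfl
      rw [h6]
      constructor <;> linarith
    have hEs : Es s (fun x => d2 Z x / A) x = 2 ^ s * ((deriv Z b - deriv Z a) / A) +
        12 * 2 ^ (3 * s) * (x - m) * ((((b - m) * deriv Z b - Z b) - ((a - m) * deriv Z a - Z a)) / A) := by
      unfold Es
      rw [← hk, ← hm, hcell, hcell, I0, I1]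
    rw [hEs]
    have hD1 : ∀ t, |deriv Z t| ≤ D1 := fun t => (hb t).1
    have hD0 : ∀ t, |Z t| ≤ D0 := fun t => (hb t).2
    have e1 : |2 ^ s * ((deriv Z b - deriv Z a) / A)| ≤ 2 * 2 ^ s * D1 / A := by
      rw [abs_mul, abs_of_pos hp2, abs_div, abs_of_pos hA]
      have h3 : |deriv Z b - deriv Z a| ≤ 2 * D1 := by
        have := abs_sub (deriv Z b) (deriv Z a)
        linarith [hD1 a, hD1 b]
      have h4 : 2 ^ s * (|deriv Z b - deriv Z a| / A) ≤ 2 ^ s * (2 * D1 / A) := by
        apply mul_le_mul_of_nonneg_left _ hp2.le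
        rw [div_le_div_iff_of_pos_right hA]
        exact h3
      refine h4.trans (le_of_eq ?_)
      ring
    have e2 : |(((b - m) * deriv Z b - Z b) - ((a - m) * deriv Z a - Z a)) / A| ≤ (D1 / 2 ^ s + 2 * D0) / A := by
      rw [abs_div, abs_of_pos hA, div_le_div_iff_of_pos_right hA, hbm, ham]
      have h5 : (0 : ℝ) < 1 / 2 / 2 ^ s := by positivity
      have h3 : |1 / 2 / 2 ^ s * deriv Z b| ≤ 1 / 2 / 2 ^ s * D1 := by
        rw [abs_mul, abs_of_pos h5]
        exact mul_le_mul_of_nonneg_left (hD1 b) h5.le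
      have h4 : |1 / 2 / 2 ^ s * deriv Z a| ≤ 1 / 2 / 2 ^ s * D1 := by
        rw [abs_mul, abs_of_pos h5]
        exact mul_le_mul_of_nonneg_left (hD1 a) h5.le
      have h6 : 1 / 2 / 2 ^ s * D1 + 1 / 2 / 2 ^ s * D1 = D1 / 2 ^ s := by ring
      have h7 := abs_le.mp h3
      have h8 := abs_le.mp h4
      have h9 := abs_le.mp (hD0 a)
      have h10 := abs_le.mp (hD0 b)
      rw [abs_le]
      constructor <;> linarith
    have e3 : |12 * 2 ^ (3 * s) * (x - m) * ((((b - m) * deriv Z b - Z b) - ((a - m) * deriv Z a - Z a)) / A)| ≤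
        6 * 4 ^ s * ((D1 / 2 ^ s + 2 * D0) / A) := by
      rw [abs_mul]
      refine mul_le_mul ?_ e2 (abs_nonneg _) (by positivity)
      rw [abs_mul, abs_of_pos (by positivity : (0 : ℝ) < 12 * 2 ^ (3 * s))]
      have h3 : 12 * (2 : ℝ) ^ (3 * s) * |x - m| ≤ 12 * 2 ^ (3 * s) * (1 / 2 / 2 ^ s) :=
        mul_le_mul_of_nonneg_left hxm (by positivity)
      refine h3.trans (le_of_eq ?_)
      have h4 : (2 : ℝ) ^ (3 * s) = 2 ^ s * 4 ^ s := by
        have : (4 : ℝ) ^ s = 2 ^ (2 * s) := by rw [pow_mul]; norm_num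
        rw [this, ← pow_add]
        congr 1
        ring
      rw [h4]
      field_simp
      ring
    refine (abs_add_le _ _).trans ((add_le_add e1 e3).trans (le_of_eq ?_))
    have h4 : (4 : ℝ) ^ s = 2 ^ s * 2 ^ s := by
      rw [← mul_pow]; norm_num
    rw [h4]
    field_simp
    ring

end Pool.Agent.helper90.DH
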